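import Mathlib
import Pool.Agent.Q307.MI.Defs
import Pool.Agent.Q307.MI.Main

/-!
# A maximal ideal of cofinality `𝔠` with relative cofinality `ω₁`

Take an independent family `{a_ξ : ξ < ω₁} ∪ {b_η : η < 𝔠}`. Let `F₀` be the filter which is
generated by the cofinite sets, the `b_η` and the complements of the sets which are contained in
infinitely many `b_η` (so every ultrafilter containing `F₀` has character `𝔠`), and let `F ⊇ F₀` be
a maximal filter modulo which the `a_ξ` are independent. Then every set `X` is decided modulo `F`
by a dense set of conditions of `Fn(α, 2)` for some `α < ω₁`; these `X` form a subalgebra `C_α`.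
Let `p` be an ultrafilter containing `F` and all `a_ξ`, and let `y_α` be an ultrafilter containing
`F`, `p ∩ C_{α+1}` and the complements of all `a_ξ`, `ξ > α`. Let `I` be the dual ideal of `p`
and `J` the dual ideal of the intersection of all `y_α`. The complements of the `a_ξ` are cofinal
in `I` modulo `J`, and no countable family is, since a countable subset of `p` is contained in
some `y_α`.
-/

set_option autoImplicit false

namespace Pool.Agent.Results.MP_f21612_lc.RelCofAlephOne

open Cardinal Pool.Agent.Q307.MI

theorem result : ∃ I J : Set (Set ℕ), IsMaximalIdeal I ∧ IsIdealOn J ∧ J ⊆ I ∧ cof I = 𝔠 ∧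
    relCof J I = ℵ₁ := main

end Pool.Agent.Results.MP_f21612_lc.RelCofAlephOne
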